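import Mathlib
import Pool.Agent.V1168.BB.Pole
import Pool.Agent.Y1.BB.Main

/-!
# The analytic conjecture of Tate for products of constant abelian varieties of almost all slope types
of all CM fields with arbitrary varieties over finitely generated fields

Let `K i` (`i` in a finite set) be CM fields of degree `2 g i`. Nothing is assumed about their Galois
groups. They are pairwise independent: for `i ≠ k` and all complex embeddings `φ` of `K i` and `ψ` of
`K k` some automorphism of `ℂ` is the identity on `φ (K i)` and the complex conjugation on `ψ (K k)`
(this is no condition if there is only one field). We fix an isomorphism `ν` of the algebraic closure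
of `ℚ_p` with `ℂ`; it defines a `p`-adic valuation of `ℂ`, with the value one at `p`. Let `M i` be a
function with nonzero integral values, all of which divide `n i`, on the complex embeddings of
`K i`, invariant under complex conjugation. A CM type `Φ i` of `K i` (a choice of one element out of
each complex conjugate pair of embeddings; there are `2 ^ (g i)` types), `M i` and a real number
`κ ≠ 0` prescribe the slopes `(a + κ M) / 2` (at the embeddings in `Φ i`) and `(a - κ M) / 2` (outside
of `Φ i`) of a Weil number for `p ^ a` in `K i` (`HasType`). If `p` splits completely in `K i` then,
by Honda and Tate, all slopes with rational values between `0` and `a` that are symmetric in this way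
occur for abelian varieties over finite fields. The case `M = 1`, `κ = a` is the case of ordinary
abelian varieties; the assumption on `M` says that `a / 2` is not a slope. Slopes are rational, so
integral weights `M` are no restriction.

There are `2 ^ (∑ i, g i)` families of CM types `Φ i` of the fields `K i`. A family is exceptional
(`exceptionalFamilies ν K M`) if the following statement (`Holds`) is false for it. Let `π i` be Weil
numbers for `q = p ^ a` that generate the fields `K i` and have the slope types `Φ i`, `M i`, and let
`f i` be monic polynomials whose complex roots are conjugates of `π i` (`IsPolyOf`), for instance the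
characteristic polynomials of Frobenius of the abelian varieties in the isogeny classes of the `π i`
over the field with `q` elements. Let `A` be an abelian variety over the field with `Q = q ^ s`
elements which is isogenous to a product of powers of abelian varieties coming from the field with
`q` elements, with characteristic polynomials `f i`, and let `k` be a field
of transcendence degree `d`, finitely generated over the field with `Q` elements, which is
algebraically closed in `k`. Let `Y` be **any** smooth projective variety over `k` which is unrelated
to the fields `K i` in the following sense (`EdgeUnrelated`): for all `b`, the poles and zeros of the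
`L`-function of `H^b(Y)` on the line `Re s = b / 2 + d`, the boundary of the domain of absolute
convergence, are at points `s` such that `Q^s` is unrelated to the fields `K i`; and on the groups of
cycles of `A × Y` modulo homological equivalence the absolute Frobenius endomorphism of `Y` satisfies
nonzero rational polynomials with unrelated roots. Both conditions are true if the eigenvalues of
the Frobenius of the field of constants on the invariants of the geometric fundamental group of `U`
(a model of `k`) in the groups `H^b(Y)` are unrelated to the `K i`: the other Frobenius eigenvalues do
not matter. (Powers of `Q`, multiplied by roots of unity, are unrelated to all CM fields.)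

A complex number `ρ ≠ 0` is unrelated to the fields `K i` (`Unrelated`) if a function `n` on the
complex embeddings of `K i` with `n (conj φ) = - n φ` which is invariant under all automorphisms of
`ℂ` that fix a power of `ρ` is zero. This is so if for each embedding `ψ` of `K i` some automorphism
which fixes a power of `ρ` is the complex conjugation on `ψ (K i)`: for instance, if a power of `ρ`
lies in a field linearly disjoint from the normal closures of the `K i`, or in a totally real field.
It is also so if the degree of `ρ` is less than twice the dimension of each nonzero space of
functions `n` stable under all automorphisms of `ℂ` (less than `2 g i` if this representation is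
irreducible, as it is for generic CM fields).

Write `A^j` for the cycles of codimension `j` modulo homological equivalence, with rational
coefficients. There are products `D t` of `c t` divisor classes on `A`, finitely many (independent
of `Y`), such that

1. every class in `A^j(A × Y)` is in a unique way the sum of the products of the `D t` with classes
   in `A^(j - c t)(Y)`;
2. the order at `s = j + d` of the `L`-function of `H^(2 j)(A × Y)` is the sum over `t` of the orders at
   `s = j - c t + d` of the `L`-functions of `H^(2 (j - c t))(Y)`;
3. **the analytic conjecture of Tate holds for `A × Y` in all codimensions `j ≤ n` if and only if it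
   holds for `Y` in all codimensions `j ≤ n`, for all `n`.**

So the conjecture for `A × Y` reduces to the one for `Y`. For instance, it holds for `A × Y` in
codimension one if it holds for `Y` in codimension one. The case `d = 0` is the one
of varieties `Y` over the finite field itself. The starting files are about abelian varieties of
dimension at most five over finite fields (and `B ^ n × S`), products of quadratic twists of curves
over `ℚ(t_1, ..., t_m)` and Artin twists over number fields.

The framework: the Chow ring and the ring of correspondences of `A`, with rational coefficients, and
the cohomology of `A` with complex coefficients (we choose an isomorphism of the algebraic closure of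
`ℚ_ℓ` with `ℂ`), with the formal properties and the theorems of Tate on divisors and of Kimura on the
nilpotence of homologically trivial correspondences (`AbelianData`, `IsAbelian`); the groups
`T^(2 j)(Y, j) = A^j(Y)` and `T^(2 j)(A × Y, j) = A^j(A × Y)`, with the products with classes on `A`, the
push-forward from `A × Y` to `Y`, the operation of the correspondences from `A` to `A` and the absolute
Frobenius endomorphism of `Y` (`RelData`, `IsRel`); the absolute Frobenius endomorphism of `A × Y` acts
on cycles of codimension `j` as multiplication by `Q ^ j` (`PureChow`). The local factors are given by
the closed points of `U`, their degrees over the field with `Q` elements and the spaces `H^b(Y)` with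
the geometric Frobenius (`LocalData`); on `H^n(A × Y) = ⨁ H^a(A) ⊗ H^(n - a)(Y)` the Frobenius at a
point `v` operates on `H^a(A)` as the `deg v`-th power of the Frobenius of `A` (`factorM`;
`H^a(A) = (H^1)^a`: `CohData`, `IsCoh`). `IsContinuation` says that `Λ` is a meromorphic continuation of
the Euler product, and the order of the `L`-function at a point is the one of any such `Λ`; by
Grothendieck the `L`-functions are rational functions of `Q^(-s)`.

The theorem bounds the number of the exceptional families: it is at most
`2 ^ (∑ i, g i) * ∑ i, C * (n i) ^ 2 * rate (K i) (g i) (q i)`, with an absolute constant `C`. Here
`q i` is any prime factor of `g i` (or `q i = 1`), and `rate K g q` is `(1 + log (2 g)) ^ 16` times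
the smaller of the numbers `W (K) / √g` and `√g / q`; the second part of the theorem
(`WeightEstimate`) is `W (K) ≤ N ^ 2 * D ^ (1 / 4)`, where `N` is the number of the CM subfields of `K`
(with `K`) and `D` is the largest degree of a CM subfield of `K` that is normal over `ℚ` with a
nonabelian Galois group (`D = 1` if there are none). So the exceptional types are a proportion
`O (n ^ 2 * g ^ (-1 / 4) * (log g) ^ 16)` of all types of all CM fields with a bounded number of CM
subfields. The number `W (K)` (`subfieldWeight K`) is the sum over the fields of definition `F` of the
isotypic components of the space of the odd functions on the complex embeddings of `K` of the number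
of the CM subfields of `F`, multiplied by `[F : ℚ] ^ (1 / 4)` if `F` is normal over `ℚ` and its Galois
group is not abelian.

The proof. The bound for the number of the degenerate types is the one of the starting files
(`AllCMFields`, MP_e12fcd_ag, and `Y1.CT.ncard_of_unrel`): if the types are not degenerate, then a
product of `ρ` and of some eigenvalues of `A`, no two of them complex conjugate, is not a power of `q`,
up to a root of unity, for all unrelated `ρ`.
If a Weil number `α` of the cohomology of `A` and an unrelated number `ρ` have the product `Q ^ i`, then
`α = Q ^ k` and `α` is a product of pairs of complex conjugate numbers, so that the eigenvectors of the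
Frobenius endomorphism of `A` for `α` are products of divisor classes. The `L`-function of
`H^a(A) ⊗ H^b(Y)` is the product of the translates of the one of `H^b(Y)` by the logarithms of the
eigenvalues `α`; as `α` has absolute value `Q^(a / 2)`, only the points on the line `Re s = b / 2 + d`
matter, a translate has a pole or a zero at `s = j + d` only if `Q ^ (j + d) / α` is unrelated, so
that `α = Q ^ k`, and the multiplicity of `Q ^ k` is the number of the `t` with `c t = k` (the `D t` have
a dual system `E t` for the intersection pairing). For the cycles, let `p` be the projector given by
the `D t`, `E t`. For a suitable polynomial `P` the correspondence `(1 - p) P (F)` is homologically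
trivial, hence nilpotent, and `P (F)` is invertible on `A^j(A × Y)`, since there the Frobenius
endomorphism `F` of `A` satisfies the polynomial with the roots `Q ^ j / ρ`. So `p` acts as the
identity. The system of equations between the ranks and the orders is triangular, with a nonzero
diagonal, whence (3).
-/

set_option autoImplicit false

namespace Pool.Agent.Results.MP_223b32_ag.AllCMTypesTimes

open NumberField Module Pool.Agent.H204R3.CM Pool.Agent.H977R3.CM Pool.Agent.TH170
  Pool.Agent.Y1.KN Pool.Agent.Y1.CT Pool.Agent.V1168.BB

/-- The reduction of the analytic conjecture of Tate for `A × Y` to the one for `Y` holds for all
abelian varieties `A` whose Frobenius eigenvalues are powers of conjugates of Weil numbers with the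
slope types `Φ i`, `M i`, and all `Y` unrelated to the fields `K i`. -/
def Holds {p : ℕ} [Fact p.Prime] (ν : PadicAlgCl p ≃+* ℂ) {I : Type} (K : I → Type)
    [∀ i, Field (K i)] [∀ i, NumberField (K i)] [∀ i, IsCMField (K i)]
    (M : ∀ i, (K i →+* ℂ) → ℤ) (Φ : ∀ i, Set (K i →+* ℂ)) : Prop :=
  ForAllTypes ν K M (AnalyticTateTimes K) Φ

/-- The exceptional families of CM types. -/
def exceptionalFamilies {p : ℕ} [Fact p.Prime] (ν : PadicAlgCl p ≃+* ℂ) {I : Type} (K : I → Type)
    [∀ i, Field (K i)] [∀ i, NumberField (K i)] [∀ i, IsCMField (K i)]
    (M : ∀ i, (K i →+* ℂ) → ℤ) : Set (∀ i, Set (K i →+* ℂ)) :=
  {Φ | (∀ i, IsCMType (Φ i)) ∧ ¬ Holds ν K M Φ}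

/-- **The analytic conjecture of Tate for `A × Y` in all codimensions at most `n` is equivalent to the
one for `Y` in all codimensions at most `n`, for the constant abelian varieties `A` of almost all slope
types of all CM fields and all unrelated varieties `Y` over finitely generated fields.** -/
theorem result :
    (∃ C : ℝ, 0 ≤ C ∧ ∀ (p : ℕ) [Fact p.Prime] (ν : PadicAlgCl p ≃+* ℂ) (I : Type) [Fintype I]
      (K : I → Type) [∀ i, Field (K i)] [∀ i, NumberField (K i)] [∀ i, IsCMField (K i)]
      (M : ∀ i, (K i →+* ℂ) → ℤ) (n g q : I → ℕ), PairwiseIndep K →
      (∀ i φ, M i (ComplexEmbedding.conjugate φ) = M i φ) → (∀ i, n i ≠ 0) →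
      (∀ i φ, M i φ ∣ (n i : ℤ)) → (∀ i, finrank ℚ (K i) = 2 * g i) →
      (∀ i, q i ∣ g i ∧ (q i = 1 ∨ (q i).Prime)) →
      ((exceptionalFamilies ν K M).ncard : ℝ) ≤
        2 ^ (∑ i, g i) * ∑ i, C * (n i : ℝ) ^ 2 * rate (K i) (g i) (q i)) ∧
    WeightEstimate := by
  obtain ⟨C, hC0, hC⟩ := Pool.Agent.Y1.BB.ncard_of_unrel_norm
  refine ⟨⟨C, hC0, ?_⟩, weight_estimate_holds⟩
  intro p _ ν I _ K _ _ _ M n g q hind hM hn hMn hg hq
  exact hC p ν I K M n g q hind hM hn hMn hg hq _ fun Q f hQ hw hR => analyticTateTimes hQ hw hR

end Pool.Agent.Results.MP_223b32_ag.AllCMTypesTimes
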