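import Pool.Agent.Y149.TL.Uni

/-!
# Poles of the L-functions of the products of an arbitrary variety with many members of a family

`Y_e`, `e ∈ ι`, is a family of smooth projective varieties over `ℚ` with bounded Betti numbers, for which the poles at
the edge are known for one and for two members: `L(H^c(Y_e), s)` has a pole of order `τ_{e,c}` at `s = c/2 + 1`, and for
`e`, `e'` not related `L(H^c(Y_e) ⊗ H^c(Y_{e'}), s)` has a pole of order `τ_{e,c} τ_{e',c}` at `s = c + 1`, the number
which comes from the classes of the two factors; every member is related to at most `M` members.  (This is what the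
method of Rankin and Selberg gives, if the cohomology of the `Y_e` is automorphic and no common constituents are expected.)

`X` is an ARBITRARY smooth projective variety over `ℚ`.  Nothing is known about the `L`-functions of `X`, of
`X × Y_e`, or of the products of three or more members of the family.  Let `P_{l,n}` be the coefficient of `T^n` in
`r₀(T) τ_{l_1}(T) ⋯ τ_{l_k}(T)`, `r₀(T) = ∑ r₀_c T^c`, `τ_e(T) = ∑ τ_{e,c} T^c`, `r₀_c` the order of the pole of
`L(H^c(X), s)` at `s = c/2 + 1`.  If the conjecture holds for `X` and for the `Y_e`, then for `n = 2j` the number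
`P_{l,n}` is the rank of the group of the codimension `j` cycles on `X × Y_{l_1} × ⋯ × Y_{l_k}` which is generated by
the products of cycles on the factors, and the conjecture says that the pole has order `P_{l,n}`, unless there are more
algebraic classes.
We prove this for all but `O(|J|^{k-1})` of the `|J|^k` tuples of members of any finite set `J` of members; for `k = 1`
these are all but boundedly many members `Y_e`, for any `X`.
-/

set_option autoImplicit false

namespace Pool.Agent.Results.MP_223b32_ag.FamiliesOfVarieties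

open Filter Topology Polynomial
open Pool.Agent.Y149.CM (LFun)
open Pool.Agent.Y149.PK

/-- **Products with many members of a family.**  `Y_e`, `e ∈ ι`, is a family of smooth projective varieties over `ℚ` as
in `Pool.Agent.Y149.PK.IsPairFamily` (orders of the poles known for one and for two members), `X` is any smooth
projective variety over `ℚ`, and `B l n` are the Euler factors of `L(H^n(X × Y_{l_1} × ⋯ × Y_{l_k}), s)`.  Let `D` be the
coefficient of `T^n` in `N₀(T) N(T)^k`, `N₀` and `N` the generating functions of the Betti numbers of `X` and of the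
bounds for the Betti numbers of the `Y_e`.
1. For every finite set `J` of indices, `η > 0` and all small `ε > 0` the sum over all `k`-tuples `l` of members of `J`
of the squares of the differences between `log |L(H^n(X × Y_l), n/2+1+ε)| / log(1/ε)` and the coefficient of `T^n` in
`z_ε(T) τ_{l_1}(T) ⋯ τ_{l_k}(T)`, `z_ε(T) = ∑_c log |L(H^c(X), c/2+1+ε)| / log(1/ε) T^c`, is at most
`2 M k² D² |J|^{k-1} + η`.
2. If the `L(H^c(X), s)`, `c ≤ n`, have poles of order `r₀ c` at `s = c/2 + 1`, then the sum of the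
`(r(l) - P_{l,n})²` over all `k`-tuples `l` of members of `J` for which the order `-r(l)` of `L(H^n(X × Y_l), s)` at
`s = n/2 + 1` exists is at most `2 M k² D² |J|^{k-1}`, where `P_{l,n}` is the coefficient of `T^n` in
`r₀(T) τ_{l_1}(T) ⋯ τ_{l_k}(T)`.  In particular `r(l) ≠ P_{l,n}` for at most `2 M k² D² |J|^{k-1}` of the tuples.
3. For `k = 1`: there are at most `2 M D²` members `Y_e` for which the order of `L(H^n(X × Y_e), s)` exists and is not
the predicted one.
4. Let `ι` be infinite and let `X_0, X_1, …` be a sequence of smooth projective varieties over `ℚ`, for example all of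
them, for which all these orders exist.  There is an infinite subset `𝒥` of `ι` with finite subsets `F_0, F_1, …` such
that for all `j`, `k`, `n` and all `k`-tuples of different members of `𝒥` outside of `F_j` the order for
`H^n(X_j × Y_l)` is the predicted one. -/
theorem result (ι : Type) (M : ℕ) (Y : ι → Variety) (N : ℕ → ℕ) (τ : ι → ℕ → ℤ)
    (hY : IsPairFamily Y N M τ) :
    (∀ (X : Variety) (B : List ι → ℕ → Nat.Primes → ℂ[X]), IsSystem X Y B →
      (∀ (k n : ℕ) (J : Finset ι) (η : ℝ), 0 < η → ∀ᶠ ε : ℝ in 𝓝[>] 0,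
        (∀ c, c ≤ n → LFun (B [] c) ((c : ℂ) / 2 + 1 + ε) ≠ 0) ∧
        (∀ l ∈ tuples J k, LFun (B (List.ofFn l) n) ((n : ℂ) / 2 + 1 + ε) ≠ 0) ∧
        ∑ l ∈ tuples J k,
          (size n (B (List.ofFn l) n) ε -
            QQ (fun c => size c (B [] c) ε) (fun e c => (τ e c : ℝ)) (List.ofFn l) n) ^ 2 ≤
          2 * M * (k * (dimY X.betti N k n : ℝ)) ^ 2 * (J.card : ℝ) ^ (k - 1) + η) ∧
      (∀ (k n : ℕ) (r₀ : ℕ → ℤ), (∀ c, c ≤ n → HasOrder c (B [] c) (-(r₀ c))) →
        ∀ (J : Finset ι) (S : Finset (Fin k → ι)) (r : (Fin k → ι) → ℤ),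
        (∀ l ∈ S, (∀ i, l i ∈ J) ∧ HasOrder n (B (List.ofFn l) n) (-(r l))) →
        ∑ l ∈ S, (r l - QQ r₀ τ (List.ofFn l) n) ^ 2 ≤
          2 * M * (k * (dimY X.betti N k n : ℤ)) ^ 2 * (J.card : ℤ) ^ (k - 1)) ∧
      (∀ (n : ℕ) (r₀ : ℕ → ℤ), (∀ c, c ≤ n → HasOrder c (B [] c) (-(r₀ c))) →
        ∀ S : Finset ι, (∀ e ∈ S, ∃ r : ℤ, HasOrder n (B [e] n) (-r) ∧ r ≠ QQ r₀ τ [e] n) →
        S.card ≤ 2 * M * dimY X.betti N 1 n ^ 2)) ∧
    (Infinite ι → ∀ (X : ℕ → Variety) (B : ℕ → List ι → ℕ → Nat.Primes → ℂ[X]),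
      (∀ j, IsSystem (X j) Y (B j)) →
      ∀ r : ℕ → List ι → ℕ → ℤ, (∀ j l n, HasOrder n (B j l n) (-(r j l n))) →
      ∃ 𝒥 : Set ι, 𝒥.Infinite ∧ ∀ j, ∃ F : Finset ι, (∀ x ∈ F, x ∈ 𝒥) ∧
        ∀ (k : ℕ) (l : Fin k → ι), Function.Injective l → (∀ i, l i ∈ 𝒥 ∧ l i ∉ F) →
        ∀ n, r j (List.ofFn l) n = QQ (r j []) τ (List.ofFn l) n) := by
  classical
  obtain ⟨R, B₁, B₂, hsymm, hM, h₁, hτ, h₂, hτ₂⟩ := pair_fam hY
  have key2 : ∀ (X : Variety) (B : List ι → ℕ → Nat.Primes → ℂ[X]), IsSystem X Y B →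
      ∀ (k n : ℕ) (r₀ : ℕ → ℤ), (∀ c, c ≤ n → HasOrder c (B [] c) (-(r₀ c))) →
        ∀ (J : Finset ι) (S : Finset (Fin k → ι)) (r : (Fin k → ι) → ℤ),
        (∀ l ∈ S, (∀ i, l i ∈ J) ∧ HasOrder n (B (List.ofFn l) n) (-(r l))) →
        ∑ l ∈ S, (r l - QQ r₀ τ (List.ofFn l) n) ^ 2 ≤
          2 * M * (k * (dimY X.betti N k n : ℤ)) ^ 2 * (J.card : ℤ) ^ (k - 1) :=
    fun X B hB k n r₀ hr₀ J S r hS =>
      gen_order hY.betti_le hsymm hM h₁ hτ h₂ hτ₂ X (B₀ := fun c => B [] c) (fun c => hB [] c)
        (B := fun l => B (List.ofFn l) n) (fun l => hB (List.ofFn l) n) hr₀ J S r hS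
  refine ⟨fun X B hB => ⟨fun k n J η hη => ?_, key2 X B hB, fun n r₀ hr₀ S hS => ?_⟩,
    fun hι X B hB r hr => ?_⟩
  · have g1 := bases_ne X (B := fun c => B [] c) (fun c => hB [] c) n
    have g2 := gen_mean hY.betti_le hsymm hM h₁ hτ h₂ hτ₂ X (B₀ := fun c => B [] c)
      (fun c => hB [] c) (k := k) (n := n) (B := fun l => B (List.ofFn l) n)
      (fun l => hB (List.ofFn l) n) J hη
    filter_upwards [g1, g2] with ε q1 q2
    exact ⟨q1, q2.1, q2.2⟩
  · choose! r hr using hS
    have g := key2 X B hB 1 n r₀ hr₀ S (S.image fun e => fun _ : Fin 1 => e)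
      (fun l => r (l 0)) (fun l hl => by
        obtain ⟨e, he, rfl⟩ := Finset.mem_image.1 hl
        refine ⟨fun _ => he, ?_⟩
        have h := (hr e he).1
        simpa using h)
    rw [Finset.sum_image (fun x _ y _ hxy => congrFun hxy 0)] at g
    have g2 : (S.card : ℤ) ≤ ∑ x ∈ S, (r x - QQ r₀ τ (List.ofFn fun _ : Fin 1 => x) n) ^ 2 := by
      calc (S.card : ℤ) = ∑ _x ∈ S, (1 : ℤ) := by simp
        _ ≤ _ := Finset.sum_le_sum fun x hx => by
          have h := (hr x hx).2
          have h3 : r x - QQ r₀ τ (List.ofFn fun _ : Fin 1 => x) n ≠ 0 := by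
            have e1 : (List.ofFn fun _ : Fin 1 => x) = [x] := by simp
            rw [e1]
            exact sub_ne_zero.2 h
          have h4 : 0 < (r x - QQ r₀ τ (List.ofFn fun _ : Fin 1 => x) n) ^ 2 := by positivity
          exact h4
    have g3 := g2.trans g
    simp only [Nat.cast_one, one_mul, Nat.sub_self, pow_zero, mul_one] at g3
    exact_mod_cast g3
  · exact Pool.Agent.Y149.TL.gen_universal hY X hB hr

end Pool.Agent.Results.MP_223b32_ag.FamiliesOfVarieties
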